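import Pool.Agent.J6H49.SY.Defs2

/-!
# Linear algebra modulo two
-/

set_option autoImplicit false

namespace Pool.Agent.J6H24.SY.Lin

variable {V E : Type} [Fintype V]

/-- the number of nonzero entries -/
def wt (S : V → ZMod 2) : ℕ := (Finset.univ.filter fun v => S v ≠ 0).card

theorem wt_zero : wt (0 : V → ZMod 2) = 0 := by simp [wt]

theorem wt_add [DecidableEq V] (S T : V → ZMod 2) : wt (S + T) ≤ wt S + wt T := by
  unfold wt
  refine (Finset.card_le_card ?_).trans (Finset.card_union_le _ _)
  intro v hv
  simp only [Finset.mem_filter, Finset.mem_univ, true_and, Finset.mem_union, Pi.add_apply] at hv ⊢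
  by_contra h
  push Not at h
  exact hv (by rw [h.1, h.2, add_zero])

theorem wt_smul (c : ZMod 2) (S : V → ZMod 2) : wt (c • S) ≤ wt S := by
  unfold wt
  refine Finset.card_le_card fun v hv => ?_
  simp only [Finset.mem_filter, Finset.mem_univ, true_and, Pi.smul_apply, smul_eq_mul] at hv ⊢
  exact fun h => hv (by rw [h, mul_zero])

/-- the value of a combination of the rows at `e` -/
def col (A : V → E → ZMod 2) (S : V → ZMod 2) (e : E) : ZMod 2 := ∑ v, S v * A v e

theorem col_add (A : V → E → ZMod 2) (S T : V → ZMod 2) (e : E) :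
    col A (S + T) e = col A S e + col A T e := by
  simp [col, add_mul, Finset.sum_add_distrib]

theorem col_smul (A : V → E → ZMod 2) (c : ZMod 2) (S : V → ZMod 2) (e : E) :
    col A (c • S) e = c * col A S e := by
  simp [col, Finset.mul_sum, mul_assoc]

/-- **SY-LIN** -/
theorem main : Pool.Agent.J6H49.SY.S_LIN := by
  intro V E _ _ _ _ A s t hst hexp K K' hK hK' β hβ
  have hbound : ∀ S : V → ZMod 2, wt S ≤ t → (∀ e, e ∉ K → e ∉ K' → col A S e = 0) →
      wt S ≤ 8 * s := by
    intro S hS h0
    have h1 : wt S ≤ 4 * (Finset.univ.filter fun e => col A S e ≠ 0).card := hexp S hS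
    have h2 : (Finset.univ.filter fun e => col A S e ≠ 0).card ≤ K.card + K'.card := by
      refine (Finset.card_le_card ?_).trans (Finset.card_union_le _ _)
      intro e he
      simp only [Finset.mem_filter, Finset.mem_univ, true_and, Finset.mem_union] at he ⊢
      by_contra h
      push Not at h
      exact he (h0 e h.1 h.2)
    omega
  let Z : Submodule (ZMod 2) (V → ZMod 2) :=
    { carrier := {S | wt S ≤ t ∧ ∀ e, e ∉ K → e ∉ K' → col A S e = 0}
      zero_mem' := ⟨by rw [wt_zero]; exact Nat.zero_le _, fun e _ _ => by simp [col]⟩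
      add_mem' := by
        rintro S T ⟨hS, hS'⟩ ⟨hT, hT'⟩
        refine ⟨?_, fun e h h' => by rw [col_add, hS' e h h', hT' e h h', add_zero]⟩
        have h1 := hbound S hS hS'
        have h2 := hbound T hT hT'
        have h3 := wt_add S T
        omega
      smul_mem' := by
        rintro c S ⟨hS, hS'⟩
        exact ⟨(wt_smul c S).trans hS, fun e h h' => by rw [col_smul, hS' e h h', mul_zero]⟩ }
  let M : Z →ₗ[ZMod 2] (E → ZMod 2) :=
    { toFun := fun S e => if e ∈ K then 0 else col A S.1 e
      map_add' := by
        intro S T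
        funext e
        simp only [Submodule.coe_add, Pi.add_apply, col_add]
        split_ifs <;> simp
      map_smul' := by
        intro c S
        funext e
        simp only [Submodule.coe_smul, Pi.smul_apply, col_smul, RingHom.id_apply, smul_eq_mul]
        split_ifs <;> simp }
  let φ : Z →ₗ[ZMod 2] ZMod 2 :=
    { toFun := fun S => ∑ v, S.1 v * β v
      map_add' := by
        intro S T
        simp [add_mul, Finset.sum_add_distrib]
      map_smul' := by
        intro c S
        simp [Finset.mul_sum, mul_assoc] }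
  have hφ : φ ∈ (LinearMap.ker M).dualAnnihilator := by
    rw [Submodule.mem_dualAnnihilator]
    intro S hS
    rw [LinearMap.mem_ker] at hS
    refine hβ S.1 S.2.1 fun e he => ?_
    have h : (if e ∈ K then 0 else col A S.1 e) = 0 := congrFun hS e
    rw [if_neg he] at h
    exact h
  rw [← LinearMap.range_dualMap_eq_dualAnnihilator_ker] at hφ
  obtain ⟨ψ, hψ⟩ := hφ
  have hψ' : ∀ S : Z, ∑ v, S.1 v * β v = ψ (M S) := fun S => by
    have := LinearMap.congr_fun hψ S
    exact this.symm
  refine ⟨fun e => if e ∈ K then 0 else ψ (Pi.single e 1), fun e he => if_pos he, ?_⟩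
  intro S hS hS'
  have hSZ : S ∈ Z := ⟨hS, fun e _ h => hS' e h⟩
  have h1 := hψ' ⟨S, hSZ⟩
  have h2 : ψ (M ⟨S, hSZ⟩) = ∑ e, (if e ∈ K then 0 else col A S e) * ψ (Pi.single e 1) := by
    have h3 : M ⟨S, hSZ⟩ = ∑ e, (if e ∈ K then 0 else col A S e) • Pi.single e (1 : ZMod 2) := by
      funext e
      rw [Finset.sum_apply, Finset.sum_eq_single e]
      · simp [M]
      · intro e' _ he'
        simp [he'.symm]
      · intro h
        exact absurd (Finset.mem_univ e) h
    rw [h3, map_sum]
    refine Finset.sum_congr rfl fun e _ => ?_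
    rw [map_smul, smul_eq_mul]
  have h4 : ∑ v, S v * ∑ e, A v e * (if e ∈ K then 0 else ψ (Pi.single e 1)) =
      ∑ e, (if e ∈ K then 0 else col A S e) * ψ (Pi.single e 1) := by
    simp only [Finset.mul_sum]
    rw [Finset.sum_comm]
    refine Finset.sum_congr rfl fun e _ => ?_
    split_ifs with h
    · simp
    · rw [col, Finset.sum_mul]
      exact Finset.sum_congr rfl fun v _ => by ring
  simp only [mul_add, Finset.sum_add_distrib]
  rw [h4, h1, h2]
  exact CharTwo.add_self_eq_zero _

end Pool.Agent.J6H24.SY.Lin
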